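import Pool.Agent.Helper52.KP.Itf

/-!
# Project KP (MP_26be5b_ag), chapter Z: from nice filtrations to normal test configurations

Target: `StZFIN` (the last statement): if the theorem holds for nice filtrations (`NF`) of `Good`
cones then `KPolystable x₀` holds.

All rings are commutative `ℂ`-algebras. For an additive commutative monoid `Λ` and submodules
`F λ` of `A` (multiplicative, `1 ∈ F 0`) the subalgebra `gr F` of the monoid algebra `A[Λ]` is the
set of all `x` with `x.coeff λ ∈ F λ` for all `λ`.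
-/

set_option autoImplicit false

namespace Pool.Agent.Helper65.KPZ

open Pool.Agent.Helper52.KP Pool.Agent.Helper67.NO
open scoped LaurentPolynomial

universe u v w

section Abs

variable {A : Type u} [CommRing A] [Algebra ℂ A]

/-- independence of a family of submodules -/
def Ind {ι : Type v} (D : ι → Submodule ℂ A) : Prop :=
  ∀ (s : Finset ι) (f : ι → A), (∀ k ∈ s, f k ∈ D k) → ∑ k ∈ s, f k = 0 → ∀ k ∈ s, f k = 0

/-- a multiplicative family -/
structure Mult {Λ : Type v} [AddCommMonoid Λ] (F : Λ → Submodule ℂ A) : Prop where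
  one : (1 : A) ∈ F 0
  mul : ∀ a b f f', f ∈ F a → f' ∈ F b → f * f' ∈ F (a + b)

/-- the subalgebra `⊕ F λ` of the monoid algebra `A[Λ]` -/
noncomputable def gr {Λ : Type v} [AddCommMonoid Λ] (F : Λ → Submodule ℂ A) (hF : Mult F) :
    Subalgebra ℂ (AddMonoidAlgebra A Λ) where
  carrier := {x | ∀ a, x.coeff a ∈ F a}
  mul_mem' := by
    intro x y hx hy a
    classical
    rw [AddMonoidAlgebra.coeff_mul]
    refine Submodule.sum_mem _ fun i _ => Submodule.sum_mem _ fun j _ => ?_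
    dsimp only
    split_ifs with h
    · rw [← h]; exact hF.mul _ _ _ _ (hx i) (hy j)
    · exact zero_mem _
  one_mem' := by
    intro a
    classical
    rw [AddMonoidAlgebra.one_def, AddMonoidAlgebra.coeff_single, Finsupp.single_apply]
    split_ifs with h
    · rw [← h]; exact hF.one
    · exact zero_mem _
  add_mem' := by
    intro x y hx hy a
    rw [AddMonoidAlgebra.coeff_add, Finsupp.add_apply]
    exact add_mem (hx a) (hy a)
  zero_mem' := fun a => by simp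
  algebraMap_mem' := by
    intro c a
    classical
    rw [Algebra.algebraMap_eq_smul_one, AddMonoidAlgebra.one_def, AddMonoidAlgebra.smul_single,
      AddMonoidAlgebra.coeff_single, Finsupp.single_apply]
    split_ifs with h
    · rw [← h]; exact Submodule.smul_mem _ _ hF.one
    · exact zero_mem _

/-- the algebra generated by all `f * single (ψ λ)`, `f ∈ F λ` -/
noncomputable def psh {Λ : Type v} [AddCommMonoid Λ] {Λ' : Type w} [AddCommMonoid Λ']
    (F : Λ → Submodule ℂ A) (ψ : Λ →+ Λ') : Subalgebra ℂ (AddMonoidAlgebra A Λ') :=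
  Algebra.adjoin ℂ {b | ∃ a f, f ∈ F a ∧ b = AddMonoidAlgebra.single (ψ a) f}

/-- the Rees algebra in Laurent polynomials, as in `Pool.Agent.Helper52.KP.rees` -/
noncomputable def rs (F : ℕ → ℤ → Submodule ℂ A) : Subalgebra ℂ A[T;T⁻¹] :=
  Algebra.adjoin ℂ {b | ∃ (k : ℕ) (l : ℤ) (f : A), f ∈ F k l ∧
    b = LaurentPolynomial.C f * LaurentPolynomial.T (-l)}

/-- the algebra `⊕ F k l τ ^ l` in polynomials, as in `NF.normal` -/
noncomputable def rp (F : ℕ → ℕ → Submodule ℂ A) : Subalgebra ℂ (Polynomial A) :=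
  Algebra.adjoin ℂ {b | ∃ k l f, f ∈ F k l ∧ b = Polynomial.C f * Polynomial.X ^ l}

/-- abstract form of `TestConf` -/
structure AF (D : ℕ → Submodule ℂ A) (F : ℕ → ℤ → Submodule ℂ A) : Prop where
  ind : Ind D
  D0 : D 0 = Submodule.span ℂ {1}
  Dmul : ∀ k k' f f', f ∈ D k → f' ∈ D k' → f * f' ∈ D (k + k')
  le : ∀ k l, F k l ≤ D k
  anti : ∀ k l, F k (l + 1) ≤ F k l
  mul : ∀ k l k' l' f f', f ∈ F k l → f' ∈ F k' l' → f * f' ∈ F (k + k') (l + l')
  exh : ∀ k, ∃ l, F k l = D k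
  sep : ∀ k, ∃ l, F k l = ⊥
  zero : (∀ l : ℤ, l ≤ 0 → F 0 l = D 0) ∧ ∀ l : ℤ, 0 < l → F 0 l = ⊥
  fg : (rs F).FG
  dom : IsDomain (rs F)
  nrm : IsIntegrallyClosed (rs F)

end Abs

/-! ### General lemmas on monoid algebras -/

/-- MODULE ZPU.  Let `deg : Λ → ℕ` be additive, `F λ ≤ D (deg λ)`, `D` independent, and let
`ψ : Λ → Λ'` be additive such that `(deg, ψ)` is injective. Then `⊕ F λ` is isomorphic to the
algebra generated by the `f * single (ψ λ)`.

PROOF. Let `Φ : A[Λ] → A[Λ']` be the algebra homomorphism `AddMonoidAlgebra.mapDomainAlgHom`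
(`Φ (single a f) = single (ψ a) f`, `Φ x = mapDomain ψ x`). Restrict `Φ` to `gr F hF` (as a ring
homomorphism into `psh F ψ`):
(1) `Φ x ∈ psh F ψ` for `x ∈ gr F hF`: `x = ∑_{a ∈ support} single a (x.coeff a)`
(`AddMonoidAlgebra.sum_coeff_single`), so `Φ x` is a sum of generators.
(2) surjective: `psh F ψ = adjoin` of elements `Φ (single a f)`, `single a f ∈ gr F hF`
(use `Algebra.adjoin_le` with the subalgebra `(gr F hF).map Φ`).
(3) injective: let `x ∈ gr F hF`, `Φ x = 0`, and suppose `a₀` is in the support of `x`. The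
coefficient of `Φ x` at `ψ a₀` is the sum of `x.coeff a` over the `a` in the support with
`ψ a = ψ a₀`. On this finite set `s` the map `deg` is injective (hinj). Apply `hD` to the finset
`s.image deg` and the function `k ↦ x.coeff a` for the unique `a ∈ s` with `deg a = k` (for instance
`k ↦ ∑ a ∈ s.filter (deg a = k), x.coeff a`); so `x.coeff a₀ = 0`, a contradiction.
Then `RingEquiv.ofBijective`. (60 lines) -/
def StZPU : Prop := ∀ {A : Type u} [CommRing A] [Algebra ℂ A] {Λ : Type v} [AddCommMonoid Λ]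
    {Λ' : Type w} [AddCommMonoid Λ'] (D : ℕ → Submodule ℂ A) (_ : Ind D) (deg : Λ →+ ℕ)
    (F : Λ → Submodule ℂ A) (hF : Mult F) (_ : ∀ a, F a ≤ D (deg a)) (ψ : Λ →+ Λ')
    (_ : ∀ a b, deg a = deg b → ψ a = ψ b → a = b), Nonempty (gr F hF ≃+* psh F ψ)

/-- MODULE ZMA.  Two algebras with families of submodules and compatible linear bijections have
isomorphic algebras `⊕ F λ`.

PROOF. `E a : F a ≃ F' a` is given by the relation `R a f f'` (a graph): for each `a` the relation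
is linear, total and bijective between `F a` and `F' a`, and multiplicative. Let `B` be the
subalgebra of `(A × A')[Λ]`, `B = gr G`, `G a = {(f, f') | f ∈ F a, f' ∈ F' a, f' = E a f}`
(submodule: image of `F a` under `f ↦ (f, E a f)`). The homomorphisms
`AddMonoidAlgebra.mapRingHom Λ (RingHom.fst A A')` and `... RingHom.snd ...` restrict to ring
isomorphisms `B ≃ gr F hF`, `B ≃ gr F' hF'`:
injective since the coefficient at `a` of `x ∈ B` is in `G a` and `fst`, `snd` are injective on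
`G a`; surjective: for `y ∈ gr F hF` take `x` with coefficient `(y.coeff a, E a (y.coeff a))`
(a finitely supported function with support in `y.coeff.support`: `Finsupp.onFinset`).
Alternative without products: define `Θ : gr F hF → A'[Λ]` by
`Θ x = ofCoeff (Finsupp.onFinset x.coeff.support (fun a => E a ⟨x.coeff a, _⟩) _)` and check
additivity coefficientwise and multiplicativity by `AddMonoidAlgebra.coeff_mul` (both sides at `a`
are the sum over `b, c` in the supports with `b + c = a` of the products). (60 lines) -/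
def StZMA : Prop := ∀ {A : Type u} [CommRing A] [Algebra ℂ A] {A' : Type w} [CommRing A']
    [Algebra ℂ A'] {Λ : Type v} [AddCommMonoid Λ] (F : Λ → Submodule ℂ A) (hF : Mult F)
    (F' : Λ → Submodule ℂ A') (hF' : Mult F') (E : ∀ a, F a ≃ₗ[ℂ] F' a)
    (_ : (E 0 ⟨1, hF.one⟩ : A') = 1)
    (_ : ∀ a b (f : F a) (g : F b) (h : F (a + b)), (h : A) = f * g →
      (E (a + b) h : A') = (E a f : A') * (E b g : A')),
    Nonempty (gr F hF ≃+* gr F' hF')

/-- MODULE ZCR.  Criterion for integrally closed.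

PROOF. Let `K = FractionRing R₂`, `x ∈ K` integral over `R₂` (use the characterisation
`isIntegrallyClosed_iff K`). `x = a / b`, `a, b ∈ R₂`, `b ≠ 0`. Let `L = FractionRing R₁` and
`j : K → L` the homomorphism induced by the injective `ι` (`IsFractionRing.map` or
`IsLocalization.map`). `j x = ι a / ι b` is integral over `R₁` (map the polynomial by `ι`), so
`j x = algebraMap s` with `s ∈ R₁`, and `ι b * s = ι a` (the map `R₁ → L` is injective).
`s` is integral over `R₂`: a monic `P` over `R₂` with `P(x) = 0` satisfies `j (P x) = 0 =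
P^ι (s)` in `L`, so `P^ι (s) = 0` in `R₁`. By the hypothesis `s = ι s'`, and then `ι b * ι s' =
ι a`, `b s' = a`, `x = s'`. (50 lines) -/
def StZCR : Prop := ∀ {R₁ : Type u} {R₂ : Type v} [CommRing R₁] [IsDomain R₁] [CommRing R₂]
    [IsDomain R₂] (ι : R₂ →+* R₁) (_ : Function.Injective ι) (_ : IsIntegrallyClosed R₁)
    (_ : ∀ s : R₁, (∃ b : R₂, b ≠ 0 ∧ ∃ a : R₂, ι b * s = ι a) →
      (∃ P : Polynomial R₂, P.Monic ∧ Polynomial.eval₂ ι s P = 0) → ∃ s', s = ι s'),
    IsIntegrallyClosed R₂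

/-- the submodules `F (M k) (l - c k)` -/
def shf {A : Type u} [CommRing A] [Algebra ℂ A] (F : ℕ → ℤ → Submodule ℂ A) (M c : ℕ) :
    ℕ × ℕ → Submodule ℂ A := fun p => F (M * p.1) ((p.2 : ℤ) - c * p.1)

/-- the full family as a family on `ℕ × ℤ` -/
def ful {A : Type u} [CommRing A] [Algebra ℂ A] (F : ℕ → ℤ → Submodule ℂ A) :
    ℕ × ℤ → Submodule ℂ A := fun p => F p.1 p.2

/-- MODULE ZSU.  Veronese and half plane: `⊕ F (M k) (l - c k)` over `k, l ≥ 0` is integrally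
closed if `⊕ F k l` over `k ∈ ℕ, l ∈ ℤ` is an integrally closed domain.

PROOF (with StZCR). `R₁ = gr (ful F) hF`, `R₂ = gr (shf F M c) hF'`, `ι` = restriction of
`AddMonoidAlgebra.mapDomainRingHom` for the injective additive map
`j (k, l) = (M k, l - c k)` (`ℕ × ℕ → ℕ × ℤ`); `ι` is injective (`mapDomain_injective`), so `R₂` is
a domain. The image of `ι` is the set of `x ∈ R₁` whose support is contained in the range of `j`,
that is in `{(K, L) | M ∣ K ∧ 0 ≤ L + c (K / M)}` (take `comapDomain`).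
Let `s ∈ R₁`, `b s = a`, `a, b ∈ im ι`, `b ≠ 0`, `s` integral over `R₂`.
(1) all `(K, L)` in the support of `s` have `M ∣ K`: write `s = s' + s''`, `s'` = the part of `s`
with `M ∣ K` (`Finsupp.filter`), `s''` the rest (both in `R₁`). The coefficient of `b s''` at
`(K, L)` is `0` if `M ∣ K` (`coeff_mul`: all `b`-degrees are divisible by `M`, all `s''`-degrees
are not), and `b s'' = a - b s'` has coefficient `0` if `M ∤ K`. So `b s'' = 0`, `s'' = 0`.
(2) let `p` be the minimum of `t (K, L) := L + c (K / M)` on the support of `s` and suppose `p < 0`.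
Let `s = s_p + s_+` with `s_p` = the part of the support with `t = p` (in `R₁`, nonzero).
For `q : ℤ` let `V q` = the set of `x ∈ R₁` with support in `{M ∣ K, t ≥ q}`; `V q * V q' ⊆ V (q + q')`
(`t` is additive on `{M ∣ K}`). From `s^d + b₁ s^(d-1) + ... + b_d = 0` with `b_i ∈ V 0` and `s ∈ V p`,
`s_+ ∈ V (p+1)`: `s^d - s_p^d ∈ V (d p + 1)` (induction on `d`: `s^(d+1) - s_p^(d+1) =
s (s^d - s_p^d) + s_p^d (s - s_p)`), `b_i s^(d-i) ∈ V ((d - i) p) ⊆ V (d p + 1)` for `i ≥ 1`. So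
`s_p^d ∈ V (d p + 1)`; but the support of `s_p^d` is in `{t = d p}`, so `s_p^d = 0`, `s_p = 0`,
a contradiction. (`d ≥ 1` since a monic polynomial of degree `0` is `1 ≠ 0`.)
So `t ≥ 0` on the support of `s` and `s ∈ im ι`. (130 lines; M > 0) -/
def StZSU : Prop := ∀ {A : Type u} [CommRing A] [Algebra ℂ A] (F : ℕ → ℤ → Submodule ℂ A)
    (hF : Mult (ful F)) (M c : ℕ) (_ : 0 < M) (hF' : Mult (shf F M c))
    (_ : IsDomain (gr (ful F) hF)) (_ : IsIntegrallyClosed (gr (ful F) hF)),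
    IsDomain (gr (shf F M c) hF') ∧ IsIntegrallyClosed (gr (shf F M c) hF')

/-! ### Veronese generated in degree one -/

/-- MODULE ZGE.  Bihomogeneous generators.

PROOF. Let `G = {C f * T (-l) | f ∈ F k l}`. `rs F = span G` as a submodule (`Algebra.adjoin` of a
set closed under multiplication which contains `1`: `Algebra.adjoin_eq_span` + the submonoid
closure of `G` is `G`; `1 ∈ F 0 0` by `zero`, `D0`). Let `rs F = adjoin S`, `S` finite. Every `s ∈ S`
is a finite linear combination of elements of `G`, so there is a finite `G₀ ⊆ G` with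
`S ⊆ adjoin G₀ ≤ rs F`, so `rs F = adjoin G₀`. Write `G₀ = {C (f i) * T (- ll i) | i : Fin s}`,
`f i ∈ F (kk i) (ll i)`. Let `x ∈ F k l`. Then `C x * T (-l) ∈ adjoin G₀` = span of the monomials
`C (∏ f i ^ e i) * T (- ∑ e i * ll i)` (`Algebra.adjoin_eq_span`, `Submonoid.closure` of the range
of a finite family, `Submonoid.mem_closure_range_iff`...; or `MvPolynomial.aeval` range:
`Algebra.adjoin_range_eq_range_aeval` and `MvPolynomial` as a sum of monomials). So
`C x * T (-l) = ∑_e c_e C (∏ f^e) T (- ∑ e ll)` (finite sum); the coefficient at `-l` gives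
`x = ∑_{e : ∑ e ll = l} c_e ∏ f^e`; the terms are in `D (∑ e kk)`; group by `∑ e kk` and use
independence of `D` (with `x ∈ D k`): `x = ∑_{e : ∑ e ll = l, ∑ e kk = k} c_e ∏ f^e`. (80 lines) -/
def StZGE : Prop := ∀ {A : Type u} [CommRing A] [Algebra ℂ A] (D : ℕ → Submodule ℂ A)
    (F : ℕ → ℤ → Submodule ℂ A), AF D F → ∃ (s : ℕ) (kk : Fin s → ℕ) (ll : Fin s → ℤ)
      (f : Fin s → A), (∀ i, f i ∈ F (kk i) (ll i)) ∧ ∀ k l, F k l ≤ Submodule.span ℂ
        {x | ∃ e : Fin s → ℕ, ∑ i, e i * kk i = k ∧ ∑ i, (e i : ℤ) * ll i = l ∧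
          x = ∏ i, f i ^ e i}

/-- MODULE ZCO.  Combinatorial lemma.

PROOF. Induction on `a`. `a = 0`: `e' = 0`. Step `a + 1`: `∑ e i * kk i ≥ (s + 1 + a + 1) L ≥
(s + 1) L`, so there is `i` with `e i * kk i ≥ L` (otherwise the sum is `≤ s L < (s + 1) L`);
`kk i > 0` (as `L > 0`), so `kk i ∣ L`. Let `e'' = e - (L / kk i) δ_i` (`e i ≥ L / kk i`), with sum
`≥ (s + 1 + a) L`; by induction there is `e''' ≤ e''` with sum `a L`; take
`e' = e''' + (L / kk i) δ_i`. (30 lines) -/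
def StZCO : Prop := ∀ (s L : ℕ) (kk : Fin s → ℕ), 0 < L → (∀ i, 0 < kk i → kk i ∣ L) →
    ∀ (a : ℕ) (e : Fin s → ℕ), (s + 1 + a) * L ≤ ∑ i, e i * kk i →
      ∃ e' : Fin s → ℕ, (∀ i, e' i ≤ e i) ∧ ∑ i, e' i * kk i = a * L

/-- MODULE ZVE.  A Veronese subalgebra is generated in degree one.

PROOF (with StZGE, StZCO). Let `L = ∏_{i : kk i > 0} kk i` (`≥ 1`), `M = (s + 1) L`. Let `k ≥ 1`. By
StZGE it suffices to treat `x = ∏ f i ^ e i`, `∑ e kk = M (k + 1) ≥ 2 M = (s + 1 + (s + 1)) L`,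
`∑ e ll = l`. StZCO with `a = s + 1` gives `e' ≤ e` with `∑ e' kk = M`. Then `x = (∏ f^(e - e'))
(∏ f^e')`, `∏ f^e' ∈ F M j` with `j = ∑ e' ll`, `∏ f^(e-e') ∈ F (M k) (l - j)` (multiplicativity,
induction; `1 ∈ F 0 0`). (50 lines) -/
def StZVE : Prop := ∀ {A : Type u} [CommRing A] [Algebra ℂ A] (D : ℕ → Submodule ℂ A)
    (F : ℕ → ℤ → Submodule ℂ A), AF D F → ∃ M : ℕ, 0 < M ∧ ∀ (k : ℕ) (l : ℤ), 0 < k →
      F (M * (k + 1)) l ≤ Submodule.span ℂ {x | ∃ (i j : ℤ) (f f' : A), i + j = l ∧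
        f ∈ F (M * k) i ∧ f' ∈ F M j ∧ x = f * f'}

/-- MODULE ZSH.  The shifted Veronese filtration is nice.

PROOF (with StZVE). `M` from StZVE. By `exh` and `anti` (monotone in `l`) there is `c : ℕ`, `c ≥ 1`,
with `F M (1 - c) = D M`. Claim: `D (M (k+1)) ≤ span (D (M k) * D M)` for `k ≥ 1`: take `l` with
`F (M (k + 1)) l = D (M (k+1))` and use StZVE and `le`. By induction on `k ≥ 1`:
`F (M k) (k (1 - c)) = D (M k)` (for `k + 1`: `D (M (k+1)) ≤ span (D (M k) * D M) =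
span (F (M k) (k (1-c)) * F M (1 - c)) ≤ F (M (k+1)) ((k+1)(1-c))`). So `F (M k) (0 - c k) = D (M k)` for
`k ≥ 1` by monotonicity, and for `k = 0` by `zero`.
Generation: `⊇` by `mul`. `⊆`: `F (M (k+1)) (l - c (k+1))` is spanned by `f f'`, `f ∈ F (M k) i₀`,
`f' ∈ F M j₀`, `i₀ + j₀ = l - c (k + 1)`; put `i = i₀ + c k`, `j = j₀ + c`, `i + j = l`. If `i, j ≥ 0` done.
If `i < 0`: `f ∈ D (M k) = F (M k) (0 - c k)`, `j > l`, `f' ∈ F M (l - c)` by monotonicity: take
`(0, l)`. If `j < 0`: similarly `(l, 0)`. Last: `F M l = ⊥` for large `l`. (90 lines) -/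
def StZSH : Prop := ∀ {A : Type u} [CommRing A] [Algebra ℂ A] (D : ℕ → Submodule ℂ A)
    (F : ℕ → ℤ → Submodule ℂ A), AF D F → ∃ M c : ℕ, 0 < M ∧
      (∀ k, shf F M c (k, 0) = D (M * k)) ∧ shf F M c (1, 1) = D M ∧
      (∃ l, shf F M c (1, l) = ⊥) ∧
      ∀ k l, 0 < k → shf F M c (k + 1, l) = Submodule.span ℂ
        {b | ∃ i j f f', i + j = l ∧ f ∈ shf F M c (k, i) ∧ f' ∈ shf F M c (1, j) ∧ b = f * f'}

/-! ### The functions on the orbit -/

/-- the linear equivalences of `StCONE` -/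
def Cmp {g : Type u} [LieRing g] [LieAlgebra ℂ g] [FiniteDimensional ℂ g] (x₀ : g) (C : Cone)
    (e : ∀ k, C.R k ≃ₗ[ℂ] Reg x₀ k) : Prop :=
  ∀ k k' (f : C.R k) (f' : C.R k') (ff : C.R (k + k')),
    (ff : MvPolynomial (Fin C.m) ℂ) = f * f' →
      (e (k + k') ff : OO x₀ → ℂ) = (e k f : OO x₀ → ℂ) * (e k' f' : OO x₀ → ℂ)

/-- MODULE ZIN.  Independence.

PROOF. (a) `Ind C.R`: `∑ f k = 0` with `f k ∈ C.R k`. For `z` and `c : ℂ`: `0 = ∑ ev (f k) (scl c z) =
∑ c^k ev (f k) z` (`Good.hom`), a polynomial in `c` which vanishes identically, so all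
`ev (f k) z = 0` (`Polynomial.funext` / coefficients of `∑ k ∈ s, monomial k (ev (f k) z)`), and
`MvPolynomial.funext` gives `f k = 0`. (b) `Ind (Reg x₀)`: for `x : OO x₀` and `c ≠ 0` the point
`c • x` is in the orbit (`hcone`), `f k (c x) = c^k f k x`; the polynomial `∑ (f k x) c^k` vanishes
for all `c ≠ 0` (infinitely many), so its coefficients vanish. (50 lines) -/
def StZIN : Prop := ∀ (g : Type u) [LieRing g] [LieAlgebra ℂ g] [FiniteDimensional ℂ g] (x₀ : g)
    (_ : ∀ x, Orb x₀ x → ∀ c : ℂ, c ≠ 0 → Orb x₀ (c • x)) (C : Cone), Good C →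
    Ind C.R ∧ Ind (Reg x₀)

/-- MODULE ZUN.  Degree zero.

PROOF. `C.R 0 = span {1}` by `Good.cst`, `Good.one`. `1 ∈ Reg x₀ 0` (constant function). As `e 0` is
a linear bijection, `Reg x₀ 0` is one-dimensional, so it is `span {1}` (`1 ≠ 0`: `OO x₀` is nonempty,
`Orb x₀ x₀`: find the lemma or prove it from the definition of `Orb`). `e 0 1 = c • 1` and, by `Cmp`,
`e 0 1 = (e 0 1)^2`, so `c = c^2`, and `c ≠ 0`. (40 lines) -/
def StZUN : Prop := ∀ (g : Type u) [LieRing g] [LieAlgebra ℂ g] [FiniteDimensional ℂ g] (x₀ : g)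
    (C : Cone) (hC : Good C) (e : ∀ k, C.R k ≃ₗ[ℂ] Reg x₀ k), Cmp x₀ C e →
    C.R 0 = Submodule.span ℂ {1} ∧ Reg x₀ 0 = Submodule.span ℂ {1} ∧
      (e 0 ⟨1, hC.one⟩ : OO x₀ → ℂ) = 1

/-- MODULE ZAF.  A test configuration is an `AF` for `D k = Reg x₀ (n r k)`.

PROOF. `ind` from `Ind (Reg x₀)` by reindexing with the injective map `k ↦ hdim x₀ * r * k`
(`hdim x₀ > 0`, `r > 0`: sum over the image finset). `D0` from StZUN (`hdim x₀ * r * 0 = 0`), `Dmul`:
products of functions in `Reg x₀ a`, `Reg x₀ b` are in `Reg x₀ (a + b)` (`p p'`, `q q'`; `c^a c^b`),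
`zero` with `Reg x₀ 0 = Reg x₀ (n r 0)`; the other fields are copied (`rs F = rees F` by `rfl`).
(40 lines) -/
def StZAF : Prop := ∀ (g : Type u) [LieRing g] [LieAlgebra ℂ g] [FiniteDimensional ℂ g] (x₀ : g)
    (_ : Ind (Reg x₀)) (_ : Reg x₀ 0 = Submodule.span ℂ {1}) (_ : 0 < hdim x₀)
    (r : ℕ) (F : ℕ → ℤ → Submodule ℂ (OO x₀ → ℂ)), 0 < r → TestConf x₀ r F →
    AF (fun k => Reg x₀ (hdim x₀ * r * k)) F

/-- the filtration of `⊕ C.R` which corresponds to `F (M k) (l - c k)` -/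
noncomputable def tr {g : Type u} [LieRing g] [LieAlgebra ℂ g] [FiniteDimensional ℂ g] {x₀ : g} {C : Cone}
    (e : ∀ k, C.R k ≃ₗ[ℂ] Reg x₀ k) (r M c : ℕ) (F : ℕ → ℤ → Submodule ℂ (OO x₀ → ℂ))
    (k l : ℕ) : Submodule ℂ (MvPolynomial (Fin C.m) ℂ) :=
  ((shf F M c (k, l)).comap
    ((Reg x₀ (C.n * (r * M) * k)).subtype.comp (e (C.n * (r * M) * k)).toLinearMap)).map
    (C.R (C.n * (r * M) * k)).subtype

/-- MODULE ZNF.  The transported filtration is nice.

PROOF. (with StZPU, StZMA, StZSU, StZIN, StZUN, StZAF.) `p ∈ tr e r M c F k l` iff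
`∃ h : p ∈ C.R (C.n (r M) k)`, `(e _ ⟨p, h⟩ : OO x₀ → ℂ) ∈ shf F M c (k, l)`. With `hn : C.n = hdim x₀`,
`C.n * (r * M) * k = hdim x₀ * r * (M * k)`. The fields `hr, zero, one, anti, sep0, sep` follow from the
hypotheses on `shf F M c` (`M`, `c` from StZSH) since `e` is bijective (`shf F M c (k, l) ≤
Reg x₀ (hdim x₀ r (M k))`, so every element of `shf` is `e _ p`), `mul` from `Cmp` and `mul` of `F`
(degrees: `C.n (r M) k + C.n (r M) k' = C.n (r M) (k + k')`; substitute equalities of degrees with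
a lemma `(e a ⟨p, h⟩ : OO x₀ → ℂ) = e b ⟨p, h'⟩` for `a = b`, by `subst`), `gen` from the last
hypothesis: `⊇` by `mul`; `⊆`: `e p` is a combination of products `f f'`; pull back by `e⁻¹`
(linear and multiplicative).
`normal`: `rs F ≃ gr (ful F)` by StZPU for `Λ = ℕ × ℤ`, `Λ' = ℤ`, `ψ (k, l) = -l`, `deg = fst`,
`D k = Reg x₀ (n r k)` (the generators `C f * T (-l) = single (-l) f`:
`LaurentPolynomial.single_eq_C_mul_T`), so `gr (ful F)` is an integrally closed domain;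
StZSU: `gr (shf F M c)` is integrally closed; StZMA: `gr (shf F M c) ≃ gr (tr e r M c F)` (as a family on
`ℕ × ℕ`); StZPU for `Λ = ℕ × ℕ`, `Λ' = ℕ`, `ψ (k, l) = l`, `D k = C.R (n r M k)`:
`gr (tr ..) ≃ psh (tr ..) snd ⊆ (MvPolynomial)[ℕ]`, and `Polynomial.toFinsuppIsoAlg` maps the
algebra of `NF.normal` onto it (`toFinsupp (C f * X^l) = single l f`,
`Polynomial.toFinsupp_C_mul_X_pow`); `IsIntegrallyClosed.of_equiv`.
(This is the longest module, 200 lines; it may be split in two: the fields without `normal`, and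
`normal`.) -/
def StZNF : Prop := ∀ (g : Type u) [LieRing g] [LieAlgebra ℂ g] [FiniteDimensional ℂ g] (x₀ : g)
    (_ : ∀ x, Orb x₀ x → ∀ c : ℂ, c ≠ 0 → Orb x₀ (c • x))
    (C : Cone), Good C → C.n = hdim x₀ → ∀ (e : ∀ k, C.R k ≃ₗ[ℂ] Reg x₀ k), Cmp x₀ C e →
    ∀ (r : ℕ) (F : ℕ → ℤ → Submodule ℂ (OO x₀ → ℂ)), 0 < r → TestConf x₀ r F →
    ∀ M c : ℕ, 0 < M → (∀ k, shf F M c (k, 0) = Reg x₀ (hdim x₀ * r * (M * k))) →
      shf F M c (1, 1) = Reg x₀ (hdim x₀ * r * M) → (∃ l, shf F M c (1, l) = ⊥) →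
      (∀ k l, 0 < k → shf F M c (k + 1, l) = Submodule.span ℂ
        {b | ∃ i j f f', i + j = l ∧ f ∈ shf F M c (k, i) ∧ f' ∈ shf F M c (1, j) ∧ b = f * f'}) →
      NF C (r * M) (tr e r M c F)

/-! ### Weights and expansions -/

/-- MODULE ZWT.  Weights: `w'(k) = w(M k) + c k dim`.

PROOF. `finrank (tr e r M c F k l) = finrank (shf F M c (k, l)) = finrank (F (M k) (l - c k))` (the map
is a composition of injective maps; every element of `F (M k) (l - c k)` is in the image of `e`).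
Let `d l = finrank (F (M k) l)` for `l : ℤ`: antitone (spaces finite-dimensional since
`Reg x₀ _ ≃ C.R _`), `d l = N` (`N = finrank Reg`) for `l ≤ - c k` (by the hypothesis and `anti`), `d l = 0` for
large `l`. `wt F (M k) = ∑ᶠ l : ℤ, l (d l - d (l + 1))`: the terms vanish outside a finite interval
`[-c k, L]`; `∑_{l = -ck}^{L} l (d l - d (l+1))`, `l = i - c k`: `= ∑_{i=0}^{L'} (i - c k)(d (i - ck) -
d (i + 1 - ck)) = ∑_{i ≥ 1} d (i - c k) - c k N` (Abel summation and telescoping, induction).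
And `wF (tr ..) k = ∑ᶠ l : ℕ, finrank (tr .. k (l+1)) = ∑ᶠ l : ℕ, d (l + 1 - c k)`. (80 lines) -/
def StZWT : Prop := ∀ (g : Type u) [LieRing g] [LieAlgebra ℂ g] [FiniteDimensional ℂ g] (x₀ : g)
    (C : Cone), Good C → C.n = hdim x₀ → ∀ (e : ∀ k, C.R k ≃ₗ[ℂ] Reg x₀ k)
    (r : ℕ) (F : ℕ → ℤ → Submodule ℂ (OO x₀ → ℂ)), 0 < r → TestConf x₀ r F →
    ∀ M c : ℕ, 0 < M → (∀ k, shf F M c (k, 0) = Reg x₀ (hdim x₀ * r * (M * k))) →
    ∀ k : ℕ, wF (tr e r M c F) k = wt F (M * k) +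
      (c : ℝ) * k * (Module.finrank ℂ (Reg x₀ (hdim x₀ * r * (M * k))) : ℝ)

/-- MODULE ZEX.  Expansions (elementary analysis of sequences).
`h k`, `w k` are sequences along all `k`, `N ≥ 1` (`N = 2 n - 1`). (a) If `h (M k)` and
`w (M k) + c k h (M k)` have expansions in `k` then `h`, `w` have expansions along the multiples of `M`.
(b) uniqueness of the coefficients of expansions along the multiples of `m` and of `M`.

PROOF. (a) `K = M k`. `|h K - (a₀' (K/M)^N + a₁' (K/M)^(N-1))| k² ≤ B k^N`; multiply by `M²`. For `w`: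
`w K = (w K + c k h K) - c k h K`, coefficients `b₀' - c a₀'`, `b₁' - c a₁'`; the error is
`≤ (B + c B) k^(N+1) / k²` (as `k |error h| k² ≤ B k^(N+1)`). The constant is a multiple of `B`
(`k = K / M`, `k² = K² / M²`, powers `(K/M)^N = K^N / M^N`). (b) along `k = m M j`, `j → ∞`:
`|(a₀ - a₀') k^N + (a₁ - a₁') k^(N-1)| k² ≤ (B + B') k^N`; divide by `k^(N+2)` and let `j → ∞`:
`a₀ = a₀'`; then `|a₁ - a₁'| k^(N+1) ≤ (B + B') k^N` gives `a₁ = a₁'`. (80 lines) -/
def StZEX : Prop := ∀ (N : ℕ), 0 < N → ∀ (h w : ℕ → ℝ),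
    (∀ (M c : ℕ) (a₀ a₁ b₀ b₁ B : ℝ), 0 < M → (∀ k : ℕ, 0 < k →
      |h (M * k) - (a₀ * k ^ N + a₁ * k ^ (N - 1))| * k ^ 2 ≤ B * k ^ N ∧
      |(w (M * k) + c * k * h (M * k)) - (b₀ * k ^ (N + 1) + b₁ * k ^ N)| * k ^ 2 ≤
        B * k ^ (N + 1)) →
      ∃ B' : ℝ, ∀ k : ℕ, 0 < k → M ∣ k →
        |h k - (a₀ / M ^ N * k ^ N + a₁ / M ^ (N - 1) * k ^ (N - 1))| * k ^ 2 ≤ B' * k ^ N ∧
        |w k - ((b₀ - c * a₀) / M ^ (N + 1) * k ^ (N + 1) + (b₁ - c * a₁) / M ^ N * k ^ N)| *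
          k ^ 2 ≤ B' * k ^ (N + 1)) ∧
    (∀ (M m : ℕ) (a₀ a₁ a₀' a₁' B B' : ℝ), 0 < M → 0 < m →
      (∀ k : ℕ, 0 < k → M ∣ k → |h k - (a₀ * k ^ N + a₁ * k ^ (N - 1))| * k ^ 2 ≤ B * k ^ N) →
      (∀ k : ℕ, 0 < k → m ∣ k →
        |h k - (a₀' * k ^ N + a₁' * k ^ (N - 1))| * k ^ 2 ≤ B' * k ^ N) →
      a₀ = a₀' ∧ a₁ = a₁')

/-! ### Products -/

/-- `F` comes from an algebra grading by nonnegative integers -/
def PF (C : Cone) (r : ℕ) (F : ℕ → ℕ → Submodule ℂ (MvPolynomial (Fin C.m) ℂ)) : Prop :=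
  ∃ G : ℕ → ℕ → Submodule ℂ (MvPolynomial (Fin C.m) ℂ),
    (∀ k, iSupIndep (G k)) ∧ (∀ k, ⨆ j, G k j = C.R (C.n * r * k)) ∧
    (∀ k j k' j' f f', f ∈ G k j → f' ∈ G k' j' → f * f' ∈ G (k + k') (j + j')) ∧
    ∀ k l, F k l = ⨆ (j : ℕ) (_ : l ≤ j), G k j

/-- MODULE ZPR.  Product filtrations.

PROOF. Let `G` be the grading of `PF C (r * M) (tr e r M c F)`. Put
`G₀ k j = ` the image under `e (C.n (r M) k)` of `G k (j + c k).toNat` if `0 ≤ j + c k`, else `⊥`
(`G k j ≤ C.R (C.n (r M) k)` by the second property), `k : ℕ`, `j : ℤ`; take `m = M`.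
Independence: the image of an independent family under an injective linear map, reindexed by an
injective map, with `⊥` elsewhere, is independent. Sum: `e` is onto. Multiplication: `Cmp` and
`(j + c k).toNat + (j' + c k').toNat = (j + j' + c (k + k')).toNat`. The last property: for
`l ≥ - c k`, `l = l' - c k`, `F (M k) l = shf F M c (k, l')` = image under `e` of `tr .. k l' =
⨆_{j ≥ l'} G k j`, that is `⨆_{j ≥ l} G₀ k j`. For `l < - c k`: `F (M k) l = ` everything (`anti` and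
the hypothesis for `(k, 0)`), and the right side is everything too. (100 lines) -/
def StZPR : Prop := ∀ (g : Type u) [LieRing g] [LieAlgebra ℂ g] [FiniteDimensional ℂ g] (x₀ : g)
    (C : Cone), Good C → C.n = hdim x₀ → ∀ (e : ∀ k, C.R k ≃ₗ[ℂ] Reg x₀ k), Cmp x₀ C e →
    ∀ (r : ℕ) (F : ℕ → ℤ → Submodule ℂ (OO x₀ → ℂ)), 0 < r → TestConf x₀ r F →
    ∀ M c : ℕ, 0 < M → (∀ k, shf F M c (k, 0) = Reg x₀ (hdim x₀ * r * (M * k))) →
    PF C (r * M) (tr e r M c F) → IsProduct r F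

/-! ### The final statement of chapter Z -/

/-- the theorem for nice filtrations -/
def StNICE : Prop := ∀ (C : Cone), Good C → ∀ r F, NF C r F → ∃ a₀ a₁ b₀ b₁ : ℝ, 0 < a₀ ∧
    Ex C r F a₀ a₁ b₀ b₁ ∧ a₀ * b₁ ≤ a₁ * b₀ ∧ (a₀ * b₁ = a₁ * b₀ → PF C r F)

/-- CHAPTER Z. -/
def StZFIN : Prop := StNICE → StCONE.{u} → ∀ (g : Type u) [LieRing g] [LieAlgebra ℂ g]
    [FiniteDimensional ℂ g] [LieAlgebra.IsSemisimple ℂ g] (x₀ : g), x₀ ≠ 0 →
    IsNilpotent (LieAlgebra.ad ℂ g x₀) → ∀ ρ : g → ℝ, RicciFlatCone x₀ ρ → KPolystable x₀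

end Pool.Agent.Helper65.KPZ
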