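import Pool.Agent.Helper65.KPZ.All
import Pool.Agent.Helper68.KP.StR

/-!
# Project KP (MP_26be5b_ag): assembly of the chapters A, T (StALG), L, W, C, M (StSLO), E, S, R
(StEQU) and G, H (StCONE)
-/

set_option autoImplicit false

namespace Pool.Agent.Helper65.KPZ

open Pool.Agent.Helper52.KP Pool.Agent.Helper67.NO

universe u

theorem nice_of (hALG : StALG) (hSLO : StSLO) (hEQU : Pool.Agent.Helper68.KP.StEQU) :
    StNICE := by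
  intro C hC r F hF
  obtain ⟨a₀, a₁, b₀, b₁, ha₀, hEx, hsl⟩ := hALG C hC r F hF
  obtain ⟨ℓ, hℓ, hle⟩ := hSLO C hC r F hF a₀ a₁ b₀ b₁ hEx
  obtain ⟨h1, h2⟩ := hsl ℓ hℓ
  have h3 : 0 ≤ a₀ * (ℓ * a₀ - b₀ / r) := mul_nonneg ha₀.le (by linarith)
  refine ⟨a₀, a₁, b₀, b₁, ha₀, hEx, by linarith, fun heq => ?_⟩
  exact hEQU C hC r F hF a₀ a₁ b₀ b₁ hEx heq (h2 (by linarith))

theorem fin_of (hALG : StALG) (hSLO : StSLO) (hEQU : Pool.Agent.Helper68.KP.StEQU)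
    (hCONE : StCONE.{u}) (g : Type u) [LieRing g] [LieAlgebra ℂ g] [FiniteDimensional ℂ g]
    [LieAlgebra.IsSemisimple ℂ g] (x₀ : g) (hx : x₀ ≠ 0)
    (hn : IsNilpotent (LieAlgebra.ad ℂ g x₀)) (ρ : g → ℝ) (hρ : RicciFlatCone x₀ ρ) :
    KPolystable x₀ :=
  zfin (nice_of hALG hSLO hEQU) hCONE g x₀ hx hn ρ hρ

end Pool.Agent.Helper65.KPZ
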