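import Pool.Agent.Helper65.KPZ.St

set_option autoImplicit false

namespace Pool.Agent.Helper65.KPZ

open Pool.Agent.Helper52.KP Pool.Agent.Helper67.NO
open scoped LaurentPolynomial

universe u

section

variable {g : Type u} [LieRing g] [LieAlgebra ℂ g] [FiniteDimensional ℂ g] {x₀ : g} {C : Cone}
  (e : ∀ k, C.R k ≃ₗ[ℂ] Reg x₀ k)

theorem e_cast (a b : ℕ) (h : a = b) (p : MvPolynomial (Fin C.m) ℂ) (h1 : p ∈ C.R a)
    (h2 : p ∈ C.R b) : (e a ⟨p, h1⟩ : OO x₀ → ℂ) = e b ⟨p, h2⟩ := by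
  subst h; rfl

theorem e_mul (he : Cmp x₀ C e) (a b d : ℕ) (h : a + b = d)
    (p q : MvPolynomial (Fin C.m) ℂ) (h1 : p ∈ C.R a) (h2 : q ∈ C.R b) (h3 : p * q ∈ C.R d) :
    (e d ⟨p * q, h3⟩ : OO x₀ → ℂ) = (e a ⟨p, h1⟩ : OO x₀ → ℂ) * (e b ⟨q, h2⟩ : OO x₀ → ℂ) := by
  subst h
  exact he a b ⟨p, h1⟩ ⟨q, h2⟩ ⟨p * q, h3⟩ rfl

theorem mem_tr (r M c : ℕ) (F : ℕ → ℤ → Submodule ℂ (OO x₀ → ℂ)) (k l : ℕ)
    (p : MvPolynomial (Fin C.m) ℂ) : p ∈ tr e r M c F k l ↔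
      ∃ h : p ∈ C.R (C.n * (r * M) * k), (e _ ⟨p, h⟩ : OO x₀ → ℂ) ∈ shf F M c (k, l) := by
  unfold tr
  constructor
  · rintro ⟨⟨q, hq⟩, h1, rfl⟩
    exact ⟨hq, h1⟩
  · rintro ⟨h, h1⟩
    exact ⟨⟨p, h⟩, h1, rfl⟩

theorem e_surj (a b : ℕ) (h : a = b) (f : OO x₀ → ℂ) (hf : f ∈ Reg x₀ b) :
    ∃ p, ∃ hp : p ∈ C.R a, (e a ⟨p, hp⟩ : OO x₀ → ℂ) = f := by
  subst h
  refine ⟨((e a).symm ⟨f, hf⟩ : C.R a), ((e a).symm ⟨f, hf⟩).2, ?_⟩
  simp

theorem e_inj (a : ℕ) (p q : MvPolynomial (Fin C.m) ℂ) (hp : p ∈ C.R a) (hq : q ∈ C.R a)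
    (h : (e a ⟨p, hp⟩ : OO x₀ → ℂ) = e a ⟨q, hq⟩) : p = q := by
  have h1 := (e a).injective (Subtype.ext h)
  exact congrArg Subtype.val h1

theorem toPolyEquiv {A : Type u} [CommRing A] [Algebra ℂ A] (F : ℕ × ℕ → Submodule ℂ A) :
    Nonempty (psh F (AddMonoidHom.snd ℕ ℕ) ≃+*
      Algebra.adjoin ℂ {b : Polynomial A | ∃ k l f, f ∈ F (k, l) ∧
        b = Polynomial.C f * Polynomial.X ^ l}) := by
  let φ : Polynomial A ≃ₐ[ℂ] AddMonoidAlgebra A ℕ :=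
    (Polynomial.toFinsuppIsoAlg (R := A)).restrictScalars ℂ
  have h1 : (Algebra.adjoin ℂ {b : Polynomial A | ∃ k l f, f ∈ F (k, l) ∧
        b = Polynomial.C f * Polynomial.X ^ l}).map (φ : Polynomial A →ₐ[ℂ] AddMonoidAlgebra A ℕ)
      = psh F (AddMonoidHom.snd ℕ ℕ) := by
    rw [AlgHom.map_adjoin, psh]
    congr 1
    ext b
    constructor
    · rintro ⟨_, ⟨k, l, f, hf, rfl⟩, rfl⟩
      exact ⟨(k, l), f, hf, Polynomial.toFinsupp_C_mul_X_pow f l⟩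
    · rintro ⟨⟨k, l⟩, f, hf, rfl⟩
      exact ⟨_, ⟨k, l, f, hf, rfl⟩, Polynomial.toFinsupp_C_mul_X_pow f l⟩
  rw [← h1]
  exact ⟨(φ.subalgebraMap _).symm.toRingEquiv⟩

theorem pshRs {A : Type u} [CommRing A] [Algebra ℂ A] (F : ℕ → ℤ → Submodule ℂ A) :
    psh (ful F) (-(AddMonoidHom.snd ℕ ℤ)) = rs F := by
  rw [psh, rs]
  congr 1
  ext b
  constructor
  · rintro ⟨⟨k, l⟩, f, hf, rfl⟩
    exact ⟨k, l, f, hf, LaurentPolynomial.single_eq_C_mul_T _ _⟩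
  · rintro ⟨k, l, f, hf, rfl⟩
    exact ⟨(k, l), f, hf, (LaurentPolynomial.single_eq_C_mul_T _ _).symm⟩

theorem ind_comp {A : Type u} [CommRing A] [Algebra ℂ A] (D : ℕ → Submodule ℂ A) (hD : Ind D)
    (j : ℕ → ℕ) (hj : Function.Injective j) : Ind (fun k => D (j k)) := by
  intro s f hf h0 k hk
  classical
  have h1 : ∀ k, ∑ a ∈ s with j a = j k, f a = if k ∈ s then f k else 0 := by
    intro k
    split_ifs with h
    · rw [Finset.sum_eq_single_of_mem k (by simp [h])]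
      intro b hb hbk
      simp only [Finset.mem_filter] at hb
      exact absurd (hj hb.2) hbk
    · refine Finset.sum_eq_zero fun b hb => ?_
      simp only [Finset.mem_filter] at hb
      rw [hj hb.2] at hb
      exact absurd hb.1 h
  have h2 := hD (s.image j) (fun i => ∑ a ∈ s with j a = i, f a) (by
    intro i hi
    simp only [Finset.mem_image] at hi
    obtain ⟨a, ha, rfl⟩ := hi
    rw [h1, if_pos ha]
    exact hf a ha) (by
    rw [Finset.sum_image (fun a _ b _ hab => hj hab)]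
    rw [← h0]
    refine Finset.sum_congr rfl fun a ha => ?_
    rw [h1, if_pos ha]) (j k) (Finset.mem_image_of_mem j hk)
  rw [h1, if_pos hk] at h2
  exact h2

theorem tr_mul {g : Type u} [LieRing g] [LieAlgebra ℂ g] [FiniteDimensional ℂ g] {x₀ : g}
    {C : Cone} (hG : Good C) (e : ∀ k, C.R k ≃ₗ[ℂ] Reg x₀ k) (he : Cmp x₀ C e)
    (r M c : ℕ) (F : ℕ → ℤ → Submodule ℂ (OO x₀ → ℂ))
    (hmul : ∀ k l k' l' f f', f ∈ F k l → f' ∈ F k' l' → f * f' ∈ F (k + k') (l + l'))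
    (k l k' l' : ℕ) (p p' : MvPolynomial (Fin C.m) ℂ) (hp : p ∈ tr e r M c F k l)
    (hp' : p' ∈ tr e r M c F k' l') : p * p' ∈ tr e r M c F (k + k') (l + l') := by
  rw [mem_tr] at hp hp' ⊢
  obtain ⟨h, h1⟩ := hp
  obtain ⟨h', h1'⟩ := hp'
  have hd : C.n * (r * M) * k + C.n * (r * M) * k' = C.n * (r * M) * (k + k') := by ring
  have h2 : p * p' ∈ C.R (C.n * (r * M) * (k + k')) := hd ▸ hG.mul _ _ _ _ h h'
  refine ⟨h2, ?_⟩
  rw [e_mul e he _ _ _ hd p p' h h' h2]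
  have h3 := hmul _ _ _ _ _ _ h1 h1'
  have e1 : M * k + M * k' = M * (k + k') := by ring
  have e2 : ((l : ℕ) : ℤ) - c * k + ((l' : ℕ) - c * k') = ((l + l' : ℕ) : ℤ) - c * (k + k' : ℕ) := by
    push_cast; ring
  have h4 : shf F M c (k + k', l + l') =
      F (M * k + M * k') (((l : ℕ) : ℤ) - c * k + ((l' : ℕ) - c * k')) := by
    rw [e1, e2]; rfl
  rw [h4]
  exact h3

theorem tr_gen {g : Type u} [LieRing g] [LieAlgebra ℂ g] [FiniteDimensional ℂ g] {x₀ : g}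
    {C : Cone} (hG : Good C) (hn : C.n = hdim x₀) (e : ∀ k, C.R k ≃ₗ[ℂ] Reg x₀ k)
    (he : Cmp x₀ C e)
    (r M c : ℕ) (F : ℕ → ℤ → Submodule ℂ (OO x₀ → ℂ)) (hF : TestConf x₀ r F)
    (k l : ℕ) (h4 : shf F M c (k + 1, l) = Submodule.span ℂ
        {b | ∃ i j f f', i + j = l ∧ f ∈ shf F M c (k, i) ∧ f' ∈ shf F M c (1, j) ∧ b = f * f'}) :
    tr e r M c F (k + 1) l = Submodule.span ℂ
      {b | ∃ i j f f', i + j = l ∧ f ∈ tr e r M c F k i ∧ f' ∈ tr e r M c F 1 j ∧ b = f * f'} := by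
  apply le_antisymm
  · intro p hp
    rw [mem_tr] at hp
    obtain ⟨h, h1⟩ := hp
    set S := Submodule.span ℂ
      {b | ∃ i j f f', i + j = l ∧ f ∈ tr e r M c F k i ∧ f' ∈ tr e r M c F 1 j ∧ b = f * f'}
      with hS
    let W : Submodule ℂ (OO x₀ → ℂ) :=
      (S.comap (C.R (C.n * (r * M) * (k + 1))).subtype).map
        ((Reg x₀ (C.n * (r * M) * (k + 1))).subtype.comp
          (e (C.n * (r * M) * (k + 1))).toLinearMap)
    have hW : shf F M c (k + 1, l) ≤ W := by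
      rw [h4, Submodule.span_le]
      rintro b ⟨i, j, f, f', hij, hf, hf', rfl⟩
      have hf1 : f ∈ Reg x₀ (hdim x₀ * r * (M * k)) := hF.le _ _ hf
      have hf1' : f' ∈ Reg x₀ (hdim x₀ * r * (M * 1)) := hF.le _ _ hf'
      obtain ⟨q, hq, rfl⟩ := e_surj e (C.n * (r * M) * k) _ (by rw [hn]; ring) f hf1
      obtain ⟨q', hq', rfl⟩ := e_surj e (C.n * (r * M) * 1) _ (by rw [hn]; ring) f' hf1'
      have hd : C.n * (r * M) * k + C.n * (r * M) * 1 = C.n * (r * M) * (k + 1) := by ring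
      have h2 : q * q' ∈ C.R (C.n * (r * M) * (k + 1)) := hd ▸ hG.mul _ _ _ _ hq hq'
      refine ⟨⟨q * q', h2⟩, Submodule.subset_span ⟨i, j, q, q', hij, ?_, ?_, rfl⟩, ?_⟩
      · exact (mem_tr e r M c F k i q).2 ⟨hq, hf⟩
      · exact (mem_tr e r M c F 1 j q').2 ⟨hq', hf'⟩
      · exact e_mul e he _ _ _ hd q q' hq hq' h2
    obtain ⟨⟨q, hq⟩, hqS, hqe⟩ := hW h1
    have : q = p := e_inj e _ q p hq h hqe
    subst this
    exact hqS
  · rw [Submodule.span_le]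
    rintro b ⟨i, j, f, f', hij, hf, hf', rfl⟩
    rw [← hij]
    exact tr_mul hG e he r M c F hF.mul k i 1 j f f' hf hf'

/-- the linear map between `tr` and `shf` -/
noncomputable def trL {g : Type u} [LieRing g] [LieAlgebra ℂ g] [FiniteDimensional ℂ g] {x₀ : g}
    {C : Cone} (e : ∀ k, C.R k ≃ₗ[ℂ] Reg x₀ k)
    (r M c : ℕ) (F : ℕ → ℤ → Submodule ℂ (OO x₀ → ℂ)) (a : ℕ × ℕ) :
    tr e r M c F a.1 a.2 →ₗ[ℂ] shf F M c a where
  toFun := fun p => ⟨(e _ ⟨p.1, ((mem_tr e r M c F a.1 a.2 p.1).1 p.2).1⟩ : OO x₀ → ℂ),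
        ((mem_tr e r M c F a.1 a.2 p.1).1 p.2).2⟩
  map_add' := fun p q => by
    apply Subtype.ext
    have h : (⟨(p + q).1, ((mem_tr e r M c F a.1 a.2 (p + q).1).1 (p + q).2).1⟩ :
        C.R (C.n * (r * M) * a.1)) =
        ⟨p.1, ((mem_tr e r M c F a.1 a.2 p.1).1 p.2).1⟩ +
        ⟨q.1, ((mem_tr e r M c F a.1 a.2 q.1).1 q.2).1⟩ := rfl
    simp only [h, map_add]
    rfl
  map_smul' := fun c' p => by
    apply Subtype.ext
    have h : (⟨(c' • p).1, ((mem_tr e r M c F a.1 a.2 (c' • p).1).1 (c' • p).2).1⟩ :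
        C.R (C.n * (r * M) * a.1)) =
        c' • ⟨p.1, ((mem_tr e r M c F a.1 a.2 p.1).1 p.2).1⟩ := rfl
    simp only [h, map_smul]
    rfl

theorem trL_apply {g : Type u} [LieRing g] [LieAlgebra ℂ g] [FiniteDimensional ℂ g] {x₀ : g}
    {C : Cone} (e : ∀ k, C.R k ≃ₗ[ℂ] Reg x₀ k)
    (r M c : ℕ) (F : ℕ → ℤ → Submodule ℂ (OO x₀ → ℂ)) (a : ℕ × ℕ)
    (p : tr e r M c F a.1 a.2) : ((trL e r M c F a p : shf F M c a) : OO x₀ → ℂ) =
      (e _ ⟨p.1, ((mem_tr e r M c F a.1 a.2 p.1).1 p.2).1⟩ : OO x₀ → ℂ) := rfl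

theorem trL_bij {g : Type u} [LieRing g] [LieAlgebra ℂ g] [FiniteDimensional ℂ g] {x₀ : g}
    {C : Cone} (hn : C.n = hdim x₀) (e : ∀ k, C.R k ≃ₗ[ℂ] Reg x₀ k)
    (r M c : ℕ) (F : ℕ → ℤ → Submodule ℂ (OO x₀ → ℂ)) (hF : TestConf x₀ r F) (a : ℕ × ℕ) :
    Function.Bijective (trL e r M c F a) := by
  constructor
  · intro p q hpq
    have h := congrArg Subtype.val hpq
    rw [trL_apply, trL_apply] at h
    exact Subtype.ext (e_inj e _ _ _ _ _ h)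
  · intro y
    obtain ⟨p, hp, h⟩ := e_surj e (C.n * (r * M) * a.1) (hdim x₀ * r * (M * a.1))
      (by rw [hn]; ring) y.1 (hF.le _ _ y.2)
    refine ⟨⟨p, (mem_tr e r M c F a.1 a.2 p).2 ⟨hp, ?_⟩⟩, Subtype.ext h⟩
    rw [h]; exact y.2

/-- the linear equivalence between `tr` and `shf` -/
noncomputable def trE {g : Type u} [LieRing g] [LieAlgebra ℂ g] [FiniteDimensional ℂ g] {x₀ : g}
    {C : Cone} (hn : C.n = hdim x₀) (e : ∀ k, C.R k ≃ₗ[ℂ] Reg x₀ k)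
    (r M c : ℕ) (F : ℕ → ℤ → Submodule ℂ (OO x₀ → ℂ)) (hF : TestConf x₀ r F) (a : ℕ × ℕ) :
    tr e r M c F a.1 a.2 ≃ₗ[ℂ] shf F M c a :=
  LinearEquiv.ofBijective (trL e r M c F a) (trL_bij hn e r M c F hF a)

theorem trE_apply {g : Type u} [LieRing g] [LieAlgebra ℂ g] [FiniteDimensional ℂ g] {x₀ : g}
    {C : Cone} (hn : C.n = hdim x₀) (e : ∀ k, C.R k ≃ₗ[ℂ] Reg x₀ k)
    (r M c : ℕ) (F : ℕ → ℤ → Submodule ℂ (OO x₀ → ℂ)) (hF : TestConf x₀ r F) (a : ℕ × ℕ)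
    (p : tr e r M c F a.1 a.2) : ((trE hn e r M c F hF a p : shf F M c a) : OO x₀ → ℂ) =
      (e _ ⟨p.1, ((mem_tr e r M c F a.1 a.2 p.1).1 p.2).1⟩ : OO x₀ → ℂ) := by
  rw [trE, LinearEquiv.ofBijective_apply, trL_apply]

theorem tr_nrm {g : Type u} [LieRing g] [LieAlgebra ℂ g] [FiniteDimensional ℂ g] {x₀ : g}
    (hPU : StZPU.{u, 0, 0}) (hPU0 : StZPU.{0, 0, 0}) (hMA : StZMA.{u, 0, 0})
    (hSU : StZSU.{u}) {C : Cone} (hG : Good C) (hn : C.n = hdim x₀)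
    (e : ∀ k, C.R k ≃ₗ[ℂ] Reg x₀ k) (he : Cmp x₀ C e) (hInd1 : Ind C.R)
    (hone : (e 0 ⟨1, hG.one⟩ : OO x₀ → ℂ) = 1)
    (r M c : ℕ) (hr : 0 < r) (hM : 0 < M) (F : ℕ → ℤ → Submodule ℂ (OO x₀ → ℂ))
    (hF : TestConf x₀ r F) (hAF : AF (fun k => Reg x₀ (hdim x₀ * r * k)) F) :
    IsIntegrallyClosed (Algebra.adjoin ℂ {b : Polynomial (MvPolynomial (Fin C.m) ℂ) |
      ∃ k l f, f ∈ tr e r M c F k l ∧ b = Polynomial.C f * Polynomial.X ^ l}) := by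
  have h1F : (1 : OO x₀ → ℂ) ∈ F 0 0 := by
    rw [hAF.zero.1 0 le_rfl, hAF.D0]
    exact Submodule.mem_span_singleton_self 1
  have hM1 : Mult (ful F) := ⟨h1F, fun a b f f' hf hf' => hF.mul _ _ _ _ _ _ hf hf'⟩
  have hM2 : Mult (shf F M c) := by
    refine ⟨by simpa [shf] using h1F, fun a b f f' hf hf' => ?_⟩
    have h3 := hF.mul _ _ _ _ _ _ hf hf'
    have e1 : M * a.1 + M * b.1 = M * (a.1 + b.1) := by ring
    have e2 : ((a.2 : ℕ) : ℤ) - c * a.1 + ((b.2 : ℕ) - c * b.1) =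
        ((a.2 + b.2 : ℕ) : ℤ) - c * (a.1 + b.1 : ℕ) := by push_cast; ring
    rw [e1, e2] at h3
    exact h3
  have hM3 : Mult (fun a : ℕ × ℕ => tr e r M c F a.1 a.2) := by
    refine ⟨?_, fun a b f f' hf hf' => tr_mul hG e he r M c F hF.mul _ _ _ _ f f' hf hf'⟩
    have h2 : (1 : MvPolynomial (Fin C.m) ℂ) ∈ C.R (C.n * (r * M) * 0) := hG.one
    refine (mem_tr e r M c F 0 0 1).2 ⟨h2, ?_⟩
    have h3 : (e (C.n * (r * M) * 0) ⟨1, h2⟩ : OO x₀ → ℂ) = 1 := by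
      rw [← hone]; exact e_cast e _ _ (by ring) 1 _ _
    rw [h3]
    exact hM2.one
  have hn0 : 0 < hdim x₀ := hn ▸ hG.hn
  obtain ⟨E1⟩ := hPU (fun k => Reg x₀ (hdim x₀ * r * k)) hAF.ind (AddMonoidHom.fst ℕ ℤ) (ful F)
    hM1 (fun a => hF.le _ _) (-(AddMonoidHom.snd ℕ ℤ)) (by
      intro a b h1 h2
      refine Prod.ext h1 ?_
      simpa using h2)
  rw [pshRs] at E1
  have := hAF.dom
  have := hAF.nrm
  have d1 : IsDomain (gr (ful F) hM1) := E1.toMulEquiv.isDomain _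
  have n1 : IsIntegrallyClosed (gr (ful F) hM1) := IsIntegrallyClosed.of_equiv E1.symm
  obtain ⟨d2, n2⟩ := hSU F hM1 M c hM hM2 d1 n1
  obtain ⟨E2⟩ := hMA (shf F M c) hM2 (fun a : ℕ × ℕ => tr e r M c F a.1 a.2) hM3
    (fun a => (trE hn e r M c F hF a).symm) (by
      have h2 : (1 : MvPolynomial (Fin C.m) ℂ) ∈ tr e r M c F 0 0 := hM3.one
      have h3 : trE hn e r M c F hF 0 ⟨1, h2⟩ = ⟨1, hM2.one⟩ := by
        apply Subtype.ext
        rw [trE_apply]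
        exact (e_cast e _ _ (by simp) 1 _ _).trans hone
      rw [← h3, LinearEquiv.symm_apply_apply]) (by
      intro a b f f' h hff
      obtain ⟨p, hp⟩ : ∃ p, p = (trE hn e r M c F hF a).symm f := ⟨_, rfl⟩
      obtain ⟨p', hp'⟩ : ∃ p', p' = (trE hn e r M c F hF b).symm f' := ⟨_, rfl⟩
      rw [LinearEquiv.eq_symm_apply] at hp hp'
      subst hp hp'
      simp only [LinearEquiv.symm_apply_apply]
      have h2 : (p.1 * p'.1) ∈ tr e r M c F (a + b).1 (a + b).2 := hM3.mul _ _ _ _ p.2 p'.2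
      have h3 : trE hn e r M c F hF (a + b) ⟨p.1 * p'.1, h2⟩ = h := by
        apply Subtype.ext
        rw [trE_apply, hff, trE_apply, trE_apply]
        exact e_mul e he _ _ _ (by simp; ring) _ _ _ _ _
      rw [← h3, LinearEquiv.symm_apply_apply])
  have n3 : IsIntegrallyClosed (gr (fun a : ℕ × ℕ => tr e r M c F a.1 a.2) hM3) :=
    IsIntegrallyClosed.of_equiv E2
  obtain ⟨E3⟩ := hPU0 (fun k => C.R (C.n * (r * M) * k))
    (ind_comp C.R hInd1 _ (fun a b hab => by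
      have : 0 < C.n * (r * M) := by have := hG.hn; positivity
      exact Nat.eq_of_mul_eq_mul_left this hab))
    (AddMonoidHom.fst ℕ ℕ) (fun a : ℕ × ℕ => tr e r M c F a.1 a.2)
    hM3 (fun a p hp => ((mem_tr e r M c F a.1 a.2 p).1 hp).1) (AddMonoidHom.snd ℕ ℕ)
    (fun a b h1 h2 => Prod.ext h1 h2)
  obtain ⟨E4⟩ := toPolyEquiv (fun a : ℕ × ℕ => tr e r M c F a.1 a.2)
  exact IsIntegrallyClosed.of_equiv (E3.trans E4)

theorem hZNF (hPU : StZPU.{u, 0, 0}) (hPU0 : StZPU.{0, 0, 0}) (hMA : StZMA.{u, 0, 0})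
    (hSU : StZSU.{u}) (hIN : StZIN.{u}) (hUN : StZUN.{u}) (hAF : StZAF.{u}) : StZNF.{u} := by
  intro g _ _ _ x₀ hcone C hG hn e he r F hr hF M c hM h1 h2 h3 h4
  obtain ⟨hInd1, hInd2⟩ := hIN g x₀ hcone C hG
  obtain ⟨hc0, hr0, hone⟩ := hUN g x₀ C hG e he
  have hAFF := hAF g x₀ hInd2 hr0 (hn ▸ hG.hn) r F hr hF
  have hdeg : ∀ k, C.n * (r * M) * k = hdim x₀ * r * (M * k) := fun k => by rw [hn]; ring
  refine ⟨Nat.mul_pos hr hM, ?_, ?_, ?_, ?_, ?_, ?_, ?_, ?_⟩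
  · intro k
    ext p
    rw [mem_tr]
    constructor
    · exact fun h => h.1
    · intro h
      refine ⟨h, ?_⟩
      rw [h1, ← hdeg]
      exact (e _ ⟨p, h⟩).2
  · ext p
    rw [mem_tr]
    have hd1 : C.n * (r * M) * 1 = C.n * (r * M) := by ring
    constructor
    · rintro ⟨h, -⟩
      rwa [hd1] at h
    · intro h
      have h' : p ∈ C.R (C.n * (r * M) * 1) := by rwa [hd1]
      refine ⟨h', ?_⟩
      rw [h2]
      have hd2 : C.n * (r * M) * 1 = hdim x₀ * r * M := by rw [hn]; ring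
      rw [← hd2]
      exact (e _ ⟨p, h'⟩).2
  · intro k l p hp
    rw [mem_tr] at hp ⊢
    obtain ⟨h, h'⟩ := hp
    refine ⟨h, ?_⟩
    have h5 := hF.anti (M * k) ((l : ℤ) - c * k)
    have e2 : ((l : ℕ) : ℤ) - c * k + 1 = ((l + 1 : ℕ) : ℤ) - c * k := by push_cast; ring
    rw [e2] at h5
    exact h5 h'
  · intro k l k' l' f f' hf hf'
    exact tr_mul hG e he r M c F hF.mul k l k' l' f f' hf hf'
  · rw [eq_bot_iff]
    intro p hp
    rw [mem_tr] at hp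
    obtain ⟨h, h'⟩ := hp
    have h5 : shf F M c (0, 1) = ⊥ := by
      have := hAFF.zero.2 1 one_pos
      simpa [shf] using this
    rw [h5] at h'
    have h6 : (⟨p, h⟩ : C.R (C.n * (r * M) * 0)) = 0 := by
      apply (e _).injective
      rw [map_zero]
      exact Subtype.ext h'
    exact congrArg Subtype.val h6
  · obtain ⟨l, hl⟩ := h3
    refine ⟨l, ?_⟩
    rw [eq_bot_iff]
    intro p hp
    rw [mem_tr] at hp
    obtain ⟨h, h'⟩ := hp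
    rw [hl] at h'
    have h6 : (⟨p, h⟩ : C.R (C.n * (r * M) * 1)) = 0 := by
      apply (e _).injective
      rw [map_zero]
      exact Subtype.ext h'
    exact congrArg Subtype.val h6
  · intro k l hk
    exact tr_gen hG hn e he r M c F hF k l (h4 k l hk)
  · exact tr_nrm hPU hPU0 hMA hSU hG hn e he hInd1 hone r M c hr hM F hF hAFF

end

end Pool.Agent.Helper65.KPZ
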