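import Pool.Agent.Helper65.KPZ.M_ZFIN
import Pool.Agent.Helper65.KPZ.M_ZNF
import Pool.Agent.Helper11.KPZ.M_ZPR
import Pool.Agent.Helper16.KPZ.M_ZGE
import Pool.Agent.Helper19.KPZ.M_ZCO
import Pool.Agent.Helper28.KPZ.M_ZVE
import Pool.Agent.Helper32.KPZ.M_ZAF
import Pool.Agent.Helper34.KPZ.M_ZSU
import Pool.Agent.Helper42.KPZ.M_ZCR
import Pool.Agent.Helper57.KPZ.M_ZIN
import Pool.Agent.Helper60.KPZ.M_ZEX
import Pool.Agent.Helper67.KPZ.M_ZUN
import Pool.Agent.Helper65.KPZ.M_ZPU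
import Pool.Agent.Helper84.KPZ.M_ZSH
import Pool.Agent.Helper9.KPZ.M_ZWT
import Pool.Agent.Helper99.KPZ.M_ZMA

/-!
# Project KP, chapter Z: complete
-/

set_option autoImplicit false

namespace Pool.Agent.Helper65.KPZ

universe u

/-- The theorem for nice filtrations of good cones and the geometry give K-polystability. -/
theorem zfin : StZFIN.{u} := by
  have hCR : StZCR.{u, u} := Pool.Agent.Helper42.KPZ.hZCR
  have hSU : StZSU.{u} := Pool.Agent.Helper34.KPZ.hZSU hCR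
  have hGE : StZGE.{u} := Pool.Agent.Helper16.KPZ.hZGE
  have hVE : StZVE.{u} := Pool.Agent.Helper28.KPZ.hZVE hGE Pool.Agent.Helper19.KPZ.hZCO
  have hSH : StZSH.{u} := Pool.Agent.Helper84.KPZ.hZSH hVE
  have hNF : StZNF.{u} := hZNF hZPU hZPU
    Pool.Agent.Helper99.KPZ.hZMA hSU Pool.Agent.Helper57.KPZ.hZIN Pool.Agent.Helper67.KPZ.hZUN
    Pool.Agent.Helper32.KPZ.hZAF
  exact hZFIN hSH Pool.Agent.Helper57.KPZ.hZIN Pool.Agent.Helper67.KPZ.hZUN
    Pool.Agent.Helper32.KPZ.hZAF hNF Pool.Agent.Helper9.KPZ.hZWT Pool.Agent.Helper60.KPZ.hZEX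
    Pool.Agent.Helper11.KPZ.hZPR

end Pool.Agent.Helper65.KPZ
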