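import Pool.Agent.Helper65.KPZ.St

set_option autoImplicit false

namespace Pool.Agent.Helper65.KPZ

open Pool.Agent.Helper52.KP Pool.Agent.Helper67.NO

universe u

theorem finrank_eq' {g : Type u} [LieRing g] [LieAlgebra ℂ g] [FiniteDimensional ℂ g] (x₀ : g)
    (C : Cone) (e : ∀ k, C.R k ≃ₗ[ℂ] Reg x₀ k) (a b : ℕ) (h : a = b) :
    Module.finrank ℂ (C.R a) = Module.finrank ℂ (Reg x₀ b) := by
  subst h
  exact (e a).finrank_eq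

theorem hZFIN (hSH : StZSH.{u}) (hIN : StZIN.{u}) (hUN : StZUN.{u}) (hAF : StZAF.{u})
    (hNF : StZNF.{u}) (hWT : StZWT.{u}) (hEX : StZEX) (hPR : StZPR.{u}) : StZFIN.{u} := by
  intro hN hC g _ _ _ _ x₀ h0 hnil ρ hρ r F hr hF
  obtain ⟨C, hG, hn, e, he⟩ := hC g x₀ h0 hnil ρ hρ
  have hcone : ∀ x, Orb x₀ x → ∀ c : ℂ, c ≠ 0 → Orb x₀ (c • x) :=
    fun x hx c hc => (hρ.cone x hx c hc).1
  have hind := (hIN g x₀ hcone C hG).2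
  have hun := hUN g x₀ C hG e he
  have hn0 : 0 < hdim x₀ := hn ▸ hG.hn
  have hAFF := hAF g x₀ hind hun.2.1 hn0 r F hr hF
  obtain ⟨M, c, hM, h1, h2, h3, h4⟩ := hSH _ F hAFF
  have hNF' := hNF g x₀ hcone C hG hn e he r F hr hF M c hM h1 h2 h3 h4
  obtain ⟨a₀, a₁, b₀, b₁, ha, ⟨K, hK⟩, hineq, heq⟩ := hN C hG (r * M) _ hNF'
  have hN1 : 0 < 2 * hdim x₀ - 1 := by omega
  obtain ⟨hE1, -⟩ := hEX (2 * hdim x₀ - 1) hN1
    (fun k => (Module.finrank ℂ (Reg x₀ (hdim x₀ * r * k)) : ℝ)) (fun k => wt F k)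
  have e1 : 2 * hdim x₀ - 1 + 1 = 2 * hdim x₀ := by omega
  have e2 : 2 * hdim x₀ - 1 - 1 = 2 * hdim x₀ - 2 := by omega
  have key : ∃ B' : ℝ, ∀ k : ℕ, 0 < k → M ∣ k →
        |(Module.finrank ℂ (Reg x₀ (hdim x₀ * r * k)) : ℝ) -
          (a₀ / M ^ (2 * hdim x₀ - 1) * k ^ (2 * hdim x₀ - 1) +
          a₁ / M ^ (2 * hdim x₀ - 1 - 1) * k ^ (2 * hdim x₀ - 1 - 1))| * k ^ 2 ≤
            B' * k ^ (2 * hdim x₀ - 1) ∧
        |wt F k - ((b₀ - c * a₀) / M ^ (2 * hdim x₀ - 1 + 1) * k ^ (2 * hdim x₀ - 1 + 1) +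
          (b₁ - c * a₁) / M ^ (2 * hdim x₀ - 1) * k ^ (2 * hdim x₀ - 1))| *
          k ^ 2 ≤ B' * k ^ (2 * hdim x₀ - 1 + 1) := by
    refine hE1 M c a₀ a₁ b₀ b₁ K hM fun k hk => ?_
    have h5 := hK k hk
    have h6 := hWT g x₀ C hG hn e r F hr hF M c hM h1 k
    have h7 : Module.finrank ℂ (C.R (C.n * (r * M) * k)) =
        Module.finrank ℂ (Reg x₀ (hdim x₀ * r * (M * k))) :=
      finrank_eq' x₀ C e _ _ (by rw [hn]; ring)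
    rw [h7, h6, hn] at h5
    rw [e1, e2]
    exact h5
  obtain ⟨B', hB'⟩ := key
  have hMr : (0 : ℝ) < M := Nat.cast_pos.2 hM
  refine ⟨⟨M, a₀ / M ^ (2 * hdim x₀ - 1), a₁ / M ^ (2 * hdim x₀ - 1 - 1),
    (b₀ - c * a₀) / M ^ (2 * hdim x₀ - 1 + 1), (b₁ - c * a₁) / M ^ (2 * hdim x₀ - 1), hM,
    div_pos ha (pow_pos hMr _), B', fun k hk hMk => ?_⟩, ?_⟩
  · have h5 := hB' k hk hMk
    rw [e1, e2] at h5 ⊢
    exact h5
  · rintro m a₀' a₁' b₀' b₁' hm ⟨B, hB⟩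
    obtain ⟨-, hE2⟩ := hEX (2 * hdim x₀ - 1) hN1
      (fun k => (Module.finrank ℂ (Reg x₀ (hdim x₀ * r * k)) : ℝ)) (fun k => wt F k)
    obtain ⟨-, hE3⟩ := hEX (2 * hdim x₀ - 1 + 1) (Nat.succ_pos _) (fun k => wt F k)
      (fun k => wt F k)
    obtain ⟨q1, q2⟩ := hE2 M m _ _ a₀' a₁' B' B hM hm (fun k hk hMk => (hB' k hk hMk).1)
      (fun k hk hmk => by rw [e2]; exact (hB k hk hmk).1)
    obtain ⟨q3, q4⟩ := hE3 M m _ _ b₀' b₁' B' B hM hm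
      (fun k hk hMk => by
        rw [Nat.add_sub_cancel]; exact (hB' k hk hMk).2)
      (fun k hk hmk => by
        rw [Nat.add_sub_cancel, e1]; exact (hB k hk hmk).2)
    have hMp : (0 : ℝ) < (M : ℝ) ^ (2 * (2 * hdim x₀ - 1)) := pow_pos hMr _
    have key2 : a₁' * b₀' - a₀' * b₁' =
        (a₁ * b₀ - a₀ * b₁) / (M : ℝ) ^ (2 * (2 * hdim x₀ - 1)) := by
      rw [← q1, ← q2, ← q3, ← q4]
      obtain ⟨p, hp⟩ : ∃ p, 2 * hdim x₀ - 1 = p + 1 := ⟨2 * hdim x₀ - 2, by omega⟩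
      rw [hp, Nat.add_sub_cancel]
      have hM0 : (M : ℝ) ≠ 0 := hMr.ne'
      field_simp
      ring
    rw [key2]
    refine ⟨div_nonneg (by linarith) hMp.le, fun h => ?_⟩
    rw [div_eq_zero_iff] at h
    rcases h with h | h
    · exact hPR g x₀ C hG hn e he r F hr hF M c hM h1 (heq (by linarith))
    · exact absurd h hMp.ne'

end Pool.Agent.Helper65.KPZ
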