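import Pool.Agent.Helper65.KPZ.St

set_option autoImplicit false

namespace Pool.Agent.Helper65.KPZ

open AddMonoidAlgebra

universe u v w

section

variable {A : Type u} [CommRing A] [Algebra ℂ A] {Λ : Type v} [AddCommMonoid Λ]
  {Λ' : Type w} [AddCommMonoid Λ']

/-- push forward -/
noncomputable def PhiZ (ψ : Λ →+ Λ') : AddMonoidAlgebra A Λ →ₐ[ℂ] AddMonoidAlgebra A Λ' :=
  AddMonoidAlgebra.mapDomainAlgHom ℂ A ψ

theorem PhiZ_single (ψ : Λ →+ Λ') (a : Λ) (f : A) :
    PhiZ ψ (AddMonoidAlgebra.single a f) = AddMonoidAlgebra.single (ψ a) f := by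
  simp [PhiZ]

theorem PhiZ_mem (F : Λ → Submodule ℂ A) (hF : Mult F) (ψ : Λ →+ Λ')
    (x : AddMonoidAlgebra A Λ) (hx : x ∈ gr F hF) : PhiZ ψ x ∈ psh F ψ := by
  rw [← AddMonoidAlgebra.sum_coeff_single x, Finsupp.sum, map_sum]
  refine Subalgebra.sum_mem _ fun a _ => ?_
  rw [PhiZ_single]
  exact Algebra.subset_adjoin ⟨a, x.coeff a, hx a, rfl⟩

theorem PhiZ_coeff (ψ : Λ →+ Λ') (x : AddMonoidAlgebra A Λ) (b : Λ') :
    (PhiZ ψ x).coeff b = by
      classical exact ∑ a ∈ x.coeff.support with ψ a = b, x.coeff a := by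
  classical
  conv_lhs => rw [← AddMonoidAlgebra.sum_coeff_single x, Finsupp.sum, map_sum]
  rw [AddMonoidAlgebra.coeff_sum, Finsupp.finsetSum_apply, Finset.sum_filter]
  refine Finset.sum_congr rfl fun a _ => ?_
  rw [PhiZ_single, AddMonoidAlgebra.coeff_single, Finsupp.single_apply]

end

theorem hZPU : StZPU.{u, v, w} := by
  classical
  intro A _ _ Λ _ Λ' _ D hD deg F hF hle ψ hinj
  let Ψ : gr F hF →+* psh F ψ :=
    { toFun := fun x => ⟨PhiZ ψ x.1, PhiZ_mem F hF ψ x.1 x.2⟩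
      map_one' := Subtype.ext (map_one (PhiZ ψ))
      map_mul' := fun x y => Subtype.ext (map_mul (PhiZ ψ) x.1 y.1)
      map_zero' := Subtype.ext (map_zero (PhiZ ψ))
      map_add' := fun x y => Subtype.ext (map_add (PhiZ ψ) x.1 y.1) }
  have hinjΨ : Function.Injective Ψ := by
    rw [injective_iff_map_eq_zero]
    rintro ⟨x, hx⟩ h0
    have h1 : PhiZ ψ x = 0 := congrArg Subtype.val h0
    apply Subtype.ext
    apply AddMonoidAlgebra.ext
    ext a₀
    by_contra hne
    have ha₀ : a₀ ∈ x.coeff.support := by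
      rw [Finsupp.mem_support_iff]
      exact hne
    have h2 : ∑ a ∈ x.coeff.support with ψ a = ψ a₀, x.coeff a = 0 := by
      have := PhiZ_coeff ψ x (ψ a₀)
      rw [h1] at this
      rw [← this]; rfl
    set s := x.coeff.support.filter (fun a => ψ a = ψ a₀) with hs
    have hmem : ∀ a ∈ s, ψ a = ψ a₀ := fun a ha => (Finset.mem_filter.1 ha).2
    have hdeg : Set.InjOn deg (s : Set Λ) := fun a ha b hb h =>
      hinj a b h ((hmem a ha).trans (hmem b hb).symm)
    have h3 : ∀ a ∈ s, ∑ b ∈ s with deg b = deg a, x.coeff b = x.coeff a := by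
      intro a ha
      rw [Finset.sum_eq_single_of_mem a (by simp [ha])]
      intro b hb hba
      rw [Finset.mem_filter] at hb
      exact absurd (hdeg hb.1 ha hb.2) hba
    have h4 := hD (s.image deg) (fun k => ∑ b ∈ s with deg b = k, x.coeff b) (by
      intro k hk
      obtain ⟨a, ha, rfl⟩ := Finset.mem_image.1 hk
      rw [h3 a ha]
      exact hle a (hx a)) (by
      rw [Finset.sum_image hdeg, Finset.sum_congr rfl h3]
      exact h2)
    have ha₀s : a₀ ∈ s := by rw [hs, Finset.mem_filter]; exact ⟨ha₀, rfl⟩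
    have h5 := h4 (deg a₀) (Finset.mem_image_of_mem _ ha₀s)
    rw [h3 a₀ ha₀s] at h5
    exact hne h5
  have hsurj : Function.Surjective Ψ := by
    rintro ⟨y, hy⟩
    have hle2 : psh F ψ ≤ (gr F hF).map (PhiZ ψ) := by
      rw [psh, Algebra.adjoin_le_iff]
      rintro b ⟨a, f, hf, rfl⟩
      refine ⟨AddMonoidAlgebra.single a f, ?_, PhiZ_single ψ a f⟩
      intro c
      rw [AddMonoidAlgebra.coeff_single, Finsupp.single_apply]
      split_ifs with h
      · rw [← h]; exact hf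
      · exact zero_mem _
    obtain ⟨x, hx, hxy⟩ := hle2 hy
    exact ⟨⟨x, hx⟩, Subtype.ext hxy⟩
  exact ⟨RingEquiv.ofBijective Ψ ⟨hinjΨ, hsurj⟩⟩

end Pool.Agent.Helper65.KPZ
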